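import Pool.Agent.N637.SLM.Stm
import Pool.Agent.N954.SLX.LocTwo

/-!
# Project SLM (helper637): the place `2`, solvability, `m = 5 mod 8`

Author: helper316, after `Pool/Agent/N691/SLK/L2.lean` (helper691) and `Pool/Agent/N954/SLX/LocTwo.lean`
(helper954).
-/

set_option autoImplicit false

namespace Pool.Agent.N316.SLM

open Pool.Agent.N637.SLM (Cw S_LT S_L2a)
open Pool.Agent.TH841.SH (LocC)
open Pool.Agent.N637.P21 (sq8)
open Pool.Agent.N954.SLX (sqI)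

/-- change of the square classes -/
theorem chg {K : Type} [Field K] {a b c d1 d2 : ℤ} (d1' d2' : ℤ) (h : LocC K a b c d1' d2')
    (n1 : (d1' : K) ≠ 0) (n2 : (d2' : K) ≠ 0) (s1 : IsSquare ((d1' : K) * d1))
    (s2 : IsSquare ((d2' : K) * d2)) : LocC K a b c d1 d2 := by
  obtain ⟨x, y, hy, he, ⟨r1, h1⟩, ⟨r2, h2⟩⟩ := h
  obtain ⟨t1, ht1⟩ := s1
  obtain ⟨t2, ht2⟩ := s2
  refine ⟨x, y, hy, he, ⟨r1 * t1 / d1', ?_⟩, ⟨r2 * t2 / d2', ?_⟩⟩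
  · field_simp
    linear_combination ((d1' : K) * d1) * h1 + r1 * r1 * ht1
  · field_simp
    linear_combination ((d2' : K) * d2) * h2 + r2 * r2 * ht2

theorem odd_sq {n : ℤ} (h : n % 2 = 1) : (n ^ 2) % 8 = 1 := by
  have h2 : n % 8 = 1 ∨ n % 8 = 3 ∨ n % 8 = 5 ∨ n % 8 = 7 := by omega
  rw [pow_two, Int.mul_emod]
  rcases h2 with h2 | h2 | h2 | h2 <;> rw [h2] <;> norm_num

/-- integral points -/
theorem mk {m a c d1 d2 : ℤ} (x : ℤ) (h0 : x * (x - a ^ 2 * m) * (x + (c ^ 2 - a ^ 2) * m) ≠ 0)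
    (h1 : IsSquare ((x * d1 : ℤ) : ℚ_[2]))
    (h2 : IsSquare (((x - a ^ 2 * m) * d2 : ℤ) : ℚ_[2]))
    (h3 : IsSquare ((x * (x - a ^ 2 * m) * (x + (c ^ 2 - a ^ 2) * m) : ℤ) : ℚ_[2])) :
    LocC ℚ_[2] 0 (a ^ 2 * m) (-(c ^ 2 - a ^ 2) * m) d1 d2 := by
  obtain ⟨r, hr⟩ := h3
  refine ⟨x, r, ?_, ?_, ?_, ?_⟩
  · rintro rfl
    rw [mul_zero] at hr
    exact h0 (by exact_mod_cast hr)
  · push_cast at hr ⊢
    rw [pow_two, ← hr]
    ring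
  · push_cast at h1 ⊢
    rw [sub_zero]
    exact h1
  · push_cast at h2 ⊢
    exact h2

theorem hex {m a c : ℤ} (ha : a % 2 = 1) :
    ∃ x y : ℚ_[2], y ≠ 0 ∧ y ^ 2 = x * (x - a ^ 2 * m) * (x + (c ^ 2 - a ^ 2) * m) ∧ IsSquare x ∧
    IsSquare (x - a ^ 2 * m) ∧ IsSquare (x + (c ^ 2 - a ^ 2) * m) := by
  have ha2 := odd_sq ha
  have hw1 : (1 - 16 * m) % 8 = 1 := by omega
  have hw2 : (a ^ 2 * (1 - 16 * m) + 16 * c ^ 2 * m) % 8 = 1 := by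
    have e : a ^ 2 * (1 - 16 * m) + 16 * c ^ 2 * m = a ^ 2 + 8 * (2 * c ^ 2 * m - 2 * a ^ 2 * m) := by
      ring
    rw [e]
    omega
  obtain ⟨r1, hr1⟩ := sq8 hw1
  obtain ⟨r2, hr2⟩ := sq8 hw2
  have n1 : r1 ≠ 0 := by
    rintro rfl
    rw [mul_zero] at hr1
    have h' : (1 - 16 * m : ℤ) = 0 := by exact_mod_cast hr1
    rw [h'] at hw1
    norm_num at hw1
  have n2 : r2 ≠ 0 := by
    rintro rfl
    rw [mul_zero] at hr2
    have h' : a ^ 2 * (1 - 16 * m) + 16 * c ^ 2 * m = 0 := by exact_mod_cast hr2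
    rw [h'] at hw2
    norm_num at hw2
  have ha0 : (a : ℚ_[2]) ≠ 0 := by
    have : a ≠ 0 := by rintro rfl; norm_num at ha
    exact_mod_cast this
  push_cast at hr1 hr2
  have e1 : ((a / 4 : ℚ_[2]) * (a / 4)) - a ^ 2 * m = (a / 4 * r1) * (a / 4 * r1) := by
    have e3 : ((a / 4 : ℚ_[2]) * r1) * (a / 4 * r1) = a ^ 2 / 16 * (r1 * r1) := by ring
    rw [e3, ← hr1]
    ring
  have e2 : ((a / 4 : ℚ_[2]) * (a / 4)) + (c ^ 2 - a ^ 2) * m = (r2 / 4) * (r2 / 4) := by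
    have e3 : (r2 / 4 : ℚ_[2]) * (r2 / 4) = (r2 * r2) / 16 := by ring
    rw [e3, ← hr2]
    ring
  refine ⟨(a / 4) * (a / 4), (a / 4) * (a / 4 * r1) * (r2 / 4), ?_, ?_, ⟨_, rfl⟩, ⟨_, e1⟩, ⟨_, e2⟩⟩
  · have h4 : (4 : ℚ_[2]) ≠ 0 := by norm_num
    exact mul_ne_zero (mul_ne_zero (div_ne_zero ha0 h4) (mul_ne_zero (div_ne_zero ha0 h4) n1))
      (div_ne_zero n2 h4)
  · rw [e1, e2]
    ring

theorem ne_of_mod {x : ℤ} (h : x % 8 = 1) : x ≠ 0 := by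
  rintro rfl
  norm_num at h

/-- the class `(1, 7)`, `c = 0 mod 8` -/
theorem p7a {m a c d : ℤ} (ha : a % 2 = 1) (hc : c % 8 = 0) (hm : m % 8 = 5) (hd : d % 8 = 7) :
    LocC ℚ_[2] 0 (a ^ 2 * m) (-(c ^ 2 - a ^ 2) * m) 1 d := by
  have ha2 := odd_sq ha
  obtain ⟨c', rfl⟩ : ∃ c', c = 8 * c' := ⟨c / 8, by omega⟩
  have ham : (a ^ 2 * m) % 8 = 5 := by
    rw [Int.mul_emod, ha2, hm]; norm_num
  obtain ⟨q, hq⟩ : ∃ q, a ^ 2 * m = 8 * q + 5 := ⟨a ^ 2 * m / 8, by omega⟩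
  have hw : ((4 - a ^ 2 * m) * (4 + ((8 * c') ^ 2 - a ^ 2) * m)) % 8 = 1 := by
    have e : (4 - a ^ 2 * m) * (4 + ((8 * c') ^ 2 - a ^ 2) * m) =
        1 + 8 * (2 * q + 8 * q ^ 2 + (4 - a ^ 2 * m) * (8 * c' ^ 2 * m)) := by
      have e1 : (4 - a ^ 2 * m) * (4 + ((8 * c') ^ 2 - a ^ 2) * m) =
        (4 - a ^ 2 * m) ^ 2 + 8 * ((4 - a ^ 2 * m) * (8 * c' ^ 2 * m)) := by ring
      rw [e1, hq]
      ring
    rw [e]
    omega
  refine mk 4 ?_ (sqI 1 1 (by norm_num) (by norm_num)) (sqI 0 ((4 - a ^ 2 * m) * d) (by ring) ?_)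
    (sqI 1 _ ?_ hw)
  · have := ne_of_mod hw
    rw [mul_assoc]
    exact mul_ne_zero (by norm_num) this
  · have h1 : (4 - a ^ 2 * m) % 8 = 7 := by omega
    rw [Int.mul_emod, h1, hd]; norm_num
  · ring

/-- the class `(1, 7)`, `c = 2 mod 4` -/
theorem p7b {m a c d : ℤ} (ha : a % 2 = 1) (hc : c % 4 = 2) (hm : m % 8 = 5) (hd : d % 8 = 7) :
    LocC ℚ_[2] 0 (a ^ 2 * m) (-(c ^ 2 - a ^ 2) * m) 1 d := by
  have ha2 := odd_sq ha
  obtain ⟨c', rfl⟩ : ∃ c', c = 2 * c' := ⟨c / 2, by omega⟩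
  have hc' : c' % 2 = 1 := by omega
  have hc2 := odd_sq hc'
  have hkm : (c' ^ 2 * m) % 8 = 5 := by
    rw [Int.mul_emod, hc2, hm]; norm_num
  have hx : (112 + (a ^ 2 - (2 * c') ^ 2) * m) % 8 = 1 := by
    have ham : (a ^ 2 * m) % 8 = 5 := by
      rw [Int.mul_emod, ha2, hm]; norm_num
    have e : 112 + (a ^ 2 - (2 * c') ^ 2) * m = 112 + a ^ 2 * m - 4 * (c' ^ 2 * m) := by ring
    rw [e]
    omega
  have hv : (28 - c' ^ 2 * m) % 8 = 7 := by omega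
  have hw : ((112 + (a ^ 2 - (2 * c') ^ 2) * m) * (7 * (28 - c' ^ 2 * m))) % 8 = 1 := by
    have h1 : (7 * (28 - c' ^ 2 * m)) % 8 = 1 := by omega
    rw [Int.mul_emod, hx, h1]; norm_num
  refine mk (112 + (a ^ 2 - (2 * c') ^ 2) * m) ?_
    (sqI 0 (112 + (a ^ 2 - (2 * c') ^ 2) * m) (by ring) hx)
    (sqI 1 ((28 - c' ^ 2 * m) * d) (by ring) ?_) (sqI 3 _ ?_ hw)
  · have := ne_of_mod hw
    have e : (112 + (a ^ 2 - (2 * c') ^ 2) * m) * (112 + (a ^ 2 - (2 * c') ^ 2) * m - a ^ 2 * m) *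
        (112 + (a ^ 2 - (2 * c') ^ 2) * m + ((2 * c') ^ 2 - a ^ 2) * m) =
        64 * ((112 + (a ^ 2 - (2 * c') ^ 2) * m) * (7 * (28 - c' ^ 2 * m))) := by ring
    rw [e]
    exact mul_ne_zero (by norm_num) this
  · rw [Int.mul_emod, hv, hd]; norm_num
  · ring

/-- the place `2` -/
theorem t_L2a (hLT : S_LT) : S_L2a := by
  intro m a c hC hsm hc hm d1 d2 hs1 hs2 h1 h2
  have ha := hC.ha
  have ha2 := odd_sq ha
  have hm0 : m ≠ 0 := hsm.ne_zero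
  have hd1 : d1 ≠ 0 := hs1.ne_zero
  have hd2 : d2 ≠ 0 := hs2.ne_zero
  obtain ⟨hT, hA⟩ := hLT ℚ_[2] m a c hm0 hC (hex ha)
  have one1 : IsSquare ((1 : ℤ) : ℚ_[2]) := sq8 (by norm_num)
  have asm : LocC ℚ_[2] 0 (a ^ 2 * m) (-(c ^ 2 - a ^ 2) * m) d1 1 →
      LocC ℚ_[2] 0 (a ^ 2 * m) (-(c ^ 2 - a ^ 2) * m) 1 d2 →
      LocC ℚ_[2] 0 (a ^ 2 * m) (-(c ^ 2 - a ^ 2) * m) d1 d2 := by
    intro h1 h2
    have := hA d1 1 1 d2 hd1 one_ne_zero one_ne_zero hd2 h1 h2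
    rwa [mul_one, one_mul] at this
  have T1 : IsSquare (d1 : ℚ_[2]) ∨ IsSquare ((d1 : ℚ_[2]) * m) →
      LocC ℚ_[2] 0 (a ^ 2 * m) (-(c ^ 2 - a ^ 2) * m) d1 1 := fun h =>
    hT d1 1 hd1 one_ne_zero (Or.inl ⟨one1, h⟩)
  have T2 : ∀ d : ℤ, d % 8 = 1 → LocC ℚ_[2] 0 (a ^ 2 * m) (-(c ^ 2 - a ^ 2) * m) 1 d := by
    intro d hd
    refine hT 1 d one_ne_zero (by omega) (Or.inl ⟨sq8 hd, Or.inl one1⟩)
  have T3 : ∀ d : ℤ, d % 8 = 3 → LocC ℚ_[2] 0 (a ^ 2 * m) (-(c ^ 2 - a ^ 2) * m) 1 d := by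
    intro d hd
    have hdm : IsSquare ((d : ℚ_[2]) * (-m)) := by
      have := sq8 (n := d * (-m)) (by
        have h5 : (-m) % 8 = 3 := by omega
        rw [Int.mul_emod, hd, h5]; norm_num)
      push_cast at this
      exact this
    refine hT 1 d one_ne_zero (by omega) (Or.inr ⟨hdm, ?_⟩)
    rcases hc with hc | hc
    · left
      have h := sq8 (n := a ^ 2 - c ^ 2) (by
        obtain ⟨c', rfl⟩ : ∃ c', c = 8 * c' := ⟨c / 8, by omega⟩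
        have e : (8 * c') ^ 2 = 8 * (8 * c' ^ 2) := by ring
        omega)
      push_cast at h ⊢
      have e : (1 : ℚ_[2]) * (-((c : ℚ_[2]) ^ 2 - (a : ℚ_[2]) ^ 2)) = (a : ℚ_[2]) ^ 2 - c ^ 2 := by
        ring
      rw [e]
      exact h
    · right
      have h := sq8 (n := (a ^ 2 - c ^ 2) * m) (by
        obtain ⟨c', rfl⟩ : ∃ c', c = 2 * c' := ⟨c / 2, by omega⟩
        have hc2 := odd_sq (n := c') (by omega)
        have e : (2 * c') ^ 2 = 4 * c' ^ 2 := by ring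
        have h5 : (a ^ 2 - (2 * c') ^ 2) % 8 = 5 := by omega
        rw [Int.mul_emod, h5, hm]; norm_num)
      push_cast at h ⊢
      have e : (1 : ℚ_[2]) * (-((c : ℚ_[2]) ^ 2 - (a : ℚ_[2]) ^ 2)) * m =
          ((a : ℚ_[2]) ^ 2 - c ^ 2) * m := by
        ring
      rw [e]
      exact h
  have T7 : ∀ d : ℤ, d % 8 = 7 → LocC ℚ_[2] 0 (a ^ 2 * m) (-(c ^ 2 - a ^ 2) * m) 1 d := by
    intro d hd
    rcases hc with hc | hc
    · exact p7a ha hc hm hd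
    · exact p7b ha hc hm hd
  have T5 : ∀ d : ℤ, d % 8 = 5 → LocC ℚ_[2] 0 (a ^ 2 * m) (-(c ^ 2 - a ^ 2) * m) 1 d := by
    intro d hd
    have L := hA 1 3 1 7 one_ne_zero (by norm_num) one_ne_zero (by norm_num) (T3 3 (by norm_num))
      (T7 7 (by norm_num))
    refine chg _ _ L (by norm_num) (by norm_num) ⟨1, by norm_num⟩ ?_
    have h := sq8 (n := 3 * 7 * d) (by omega)
    push_cast at h ⊢
    exact h
  apply asm
  · have h18 : d1 % 8 = 1 ∨ d1 % 8 = 5 := by omega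
    rcases h18 with h18 | h18
    · exact T1 (Or.inl (sq8 h18))
    · refine T1 (Or.inr ?_)
      have := sq8 (n := d1 * m) (by rw [Int.mul_emod, h18, hm]; norm_num)
      push_cast at this
      exact this
  · have h28 : d2 % 8 = 1 ∨ d2 % 8 = 3 ∨ d2 % 8 = 5 ∨ d2 % 8 = 7 := by omega
    rcases h28 with h28 | h28 | h28 | h28
    · exact T2 _ h28
    · exact T3 _ h28
    · exact T5 _ h28
    · exact T7 _ h28

end Pool.Agent.N316.SLM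

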